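import Pool.Agent.MVO.StmtsV

/-! Row T2V of squad MVO: tightness in degree 2. -/

namespace Pool.Agent.MVO.H48

open Pool.Agent.Helper14_MV Pool.Agent.Helper2_MV Pool.Agent.MVO

theorem deg_sg {k l d : ℕ} (h : l ≤ k) : deg k (sg l d) = d := by
  unfold deg sg
  rw [Finset.sum_ite_eq']
  simp
  omega

theorem sp_sg {k l d : ℕ} (h : l ≤ k) (hd : d ≠ 0) : sp k (sg l d) = {l} := by
  unfold sp sg
  ext j
  simp only [Finset.mem_filter, Finset.mem_range, Finset.mem_singleton]
  constructor
  · rintro ⟨_, h2⟩
    by_contra hj
    exact h2 (if_neg hj)
  · rintro rfl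
    exact ⟨by omega, by simpa using hd⟩

/-- two unit vectors -/
def ee (p l : ℕ) : ℕ → ℕ := fun j => (if j = p then 1 else 0) + (if j = l then 1 else 0)

theorem deg_ee {k p l : ℕ} (hp : p ≤ k) (h : l ≤ k) : deg k (ee p l) = 2 := by
  unfold deg ee
  rw [Finset.sum_add_distrib, Finset.sum_ite_eq', Finset.sum_ite_eq',
    if_pos (Finset.mem_range.2 (by omega)), if_pos (Finset.mem_range.2 (by omega))]

theorem sp_ee {k p l : ℕ} (hp : p ≤ k) (h : l ≤ k) : sp k (ee p l) = {p, l} := by
  unfold sp ee
  ext j
  simp only [Finset.mem_filter, Finset.mem_range, Finset.mem_insert, Finset.mem_singleton]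
  constructor
  · rintro ⟨_, h2⟩
    by_contra hj
    rw [not_or] at hj
    exact h2 (by rw [if_neg hj.1, if_neg hj.2])
  · rintro (rfl | rfl)
    · exact ⟨by omega, by simp⟩
    · exact ⟨by omega, by simp⟩

theorem card_le {k : ℕ} {a : ℕ → ℕ} : (sp k a).card ≤ deg k a := by
  unfold sp deg
  rw [Finset.card_eq_sum_ones, Finset.sum_filter]
  apply Finset.sum_le_sum
  intro j _
  split_ifs with h
  · omega
  · exact Nat.zero_le _

theorem sp_ne {k : ℕ} {a : ℕ → ℕ} (h : deg k a = 2) : (sp k a).Nonempty := by
  by_contra hcon
  rw [Finset.not_nonempty_iff_eq_empty] at hcon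
  have h0 : deg k a = 0 := by
    unfold deg
    apply Finset.sum_eq_zero
    intro j hj
    by_contra hj0
    have : j ∈ sp k a := Finset.mem_filter.2 ⟨hj, hj0⟩
    rw [hcon] at this
    simp at this
  omega

theorem set_eq_pair {S : Finset ℕ} (hS : S.card ≤ 2) (hne : S.Nonempty) :
    S = {S.min' hne, S.max' hne} := by
  ext x
  simp only [Finset.mem_insert, Finset.mem_singleton]
  constructor
  · intro hx
    by_contra hcon
    rw [not_or] at hcon
    have h1 : S.min' hne < x := lt_of_le_of_ne (Finset.min'_le _ _ hx) (Ne.symm hcon.1)
    have h2 : x < S.max' hne := lt_of_le_of_ne (Finset.le_max' _ _ hx) hcon.2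
    have h3 : ({S.min' hne, x, S.max' hne} : Finset ℕ) ⊆ S := by
      intro y hy
      simp only [Finset.mem_insert, Finset.mem_singleton] at hy
      rcases hy with rfl | rfl | rfl
      · exact Finset.min'_mem _ _
      · exact hx
      · exact Finset.max'_mem _ _
    have h4 := Finset.card_le_card h3
    rw [Finset.card_eq_three.2 ⟨S.min' hne, x, S.max' hne, by omega, by omega, by omega, rfl⟩] at h4
    omega
  · rintro (rfl | rfl)
    · exact Finset.min'_mem _ _
    · exact Finset.max'_mem _ _

theorem set_eq {S S' : Finset ℕ} (hS : S.card ≤ 2) (hS' : S'.card ≤ 2) (hne : S.Nonempty)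
    (hne' : S'.Nonempty) (h1 : S.min = S'.min) (h2 : S.max = S'.max) : S = S' := by
  have e1 : S.min' hne = S'.min' hne' :=
    WithTop.coe_injective ((Finset.coe_min' hne).trans (h1.trans (Finset.coe_min' hne').symm))
  have e2 : S.max' hne = S'.max' hne' :=
    WithBot.coe_injective ((Finset.coe_max' hne).trans (h2.trans (Finset.coe_max' hne').symm))
  rw [set_eq_pair hS hne, set_eq_pair hS' hne', e1, e2]

theorem t2v (oar : OarStmt) (fv1 : Fv1Stmt) (fv7 : Fv7Stmt) : T2vStmt := by
  intro ρ hρ k a a' b i hda hda' hdb hi hL hsp
  obtain ⟨v0, vv2, v5⟩ := fv1 ρ hρ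
  have fv7' := fv7 ρ hρ
  obtain ⟨_, hB, hA, hC⟩ := oar (FC.ofFIC ρ) k a a' (Or.inr hda) (by omega) (by omega) hL hsp
  rw [hda] at hB hA hC
  have hca : (sp k a).card ≤ 2 := by have := card_le (k := k) (a := a); omega
  have hca' : (sp k a').card ≤ 2 := by have := card_le (k := k) (a := a'); omega
  have hna := sp_ne hda
  have hna' := sp_ne hda'
  have d20 : deg 1 (v2 2 0) = 2 := by simp [deg, v2, Finset.sum_range_succ]
  have d02 : deg 1 (v2 0 2) = 2 := by simp [deg, v2, Finset.sum_range_succ]
  have d11 : deg 1 (v2 1 1) = 2 := by simp [deg, v2, Finset.sum_range_succ]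
  have s20 : sp 1 (v2 2 0) = {0} := by decide
  have s02 : sp 1 (v2 0 2) = {1} := by decide
  have s11 : sp 1 (v2 1 1) = {0, 1} := by decide
  by_cases hmax : (sp k a).max = (sp k a').max
  · -- same last block
    have hmin : (sp k a).min ≠ (sp k a').min := fun h => hsp (set_eq hca hca' hna hna' h hmax)
    have hnot : ¬ ((sp k a).card = 1 ∧ (sp k a').card = 1) := by
      rintro ⟨h1, h2⟩
      obtain ⟨x, hx⟩ := Finset.card_eq_one.1 h1
      obtain ⟨y, hy⟩ := Finset.card_eq_one.1 h2
      rw [hx, hy, Finset.max_singleton, Finset.max_singleton] at hmax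
      apply hsp
      rw [hx, hy]
      have : x = y := by exact_mod_cast hmax
      rw [this]
    have hBP := hB hmin hnot
    obtain ⟨l, hl⟩ := Finset.max_of_nonempty hna
    have hlm : l ∈ sp k a := Finset.mem_of_max hl
    have hlk : l ≤ k := by
      have := (Finset.mem_filter.1 hlm).1
      rw [Finset.mem_range] at this
      omega
    have r1 : L1 ρ k a (sg l 2) := hBP k a (sg l 2) hda (deg_sg hlk) hca
      (by rw [sp_sg hlk (by omega)]; simp) (by rw [sp_sg hlk (by omega), hl, Finset.max_singleton])
    have r2 : ∀ j < l, L1 ρ k a (ee j l) := by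
      intro j hj
      refine hBP k a (ee j l) hda (deg_ee (by omega) hlk) hca
        (by rw [sp_ee (by omega) hlk]; exact Finset.card_le_two) ?_
      rw [sp_ee (by omega) hlk, hl, Finset.max_insert, Finset.max_singleton]
      symm
      exact max_eq_right (by exact_mod_cast hj.le)
    by_cases hil : i = l
    · subst hil
      by_cases hb1 : ∃ j < i, 1 ≤ b j
      · obtain ⟨j, hj, hbj⟩ := hb1
        refine vv2 k a (ee j i) b i (r2 j hj) (v0 k (ee j i) b i
          (by rw [deg_ee (by omega) hlk]) hdb hi ?_)
        rintro ⟨h1, _⟩
        rcases h1 j (by omega) (by omega) with h2 | h2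
        · unfold ee at h2
          simp at h2
        · omega
      · by_cases hb2 : b i = 1
        · -- one occurrence in block `i`, the others behind it
          have hb3 : ∃ j, i < j ∧ j ≤ k ∧ 1 ≤ b j := by
            by_contra hcon
            have h1 : deg k b = b i := by
              unfold deg
              rw [Finset.sum_eq_single i]
              · intro j hj hji
                rw [Finset.mem_range] at hj
                by_contra hbj
                rcases lt_or_gt_of_ne hji with h2 | h2
                · exact hb1 ⟨j, h2, by omega⟩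
                · exact hcon ⟨j, h2, by omega, by omega⟩
              · intro h2
                rw [Finset.mem_range] at h2
                omega
            omega
          obtain ⟨j, hij, hjk, hbj⟩ := hb3
          have r3 : L1 ρ 1 (v2 1 1) (v2 0 2) := hBP 1 (v2 1 1) (v2 0 2) d11 d02
            (by rw [s11]; decide) (by rw [s02]; decide) (by rw [s11, s02]; decide)
          have hf : BMap 1 k (fun m => if m = 0 then i else j) := by
            constructor
            · intro m m' hm hm'
              by_cases h1 : m = 0
              · by_cases h2 : m' = 0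
                · simp [h1, h2]
                · simp [h1, h2]
                  omega
              · have h2 : ¬ m' = 0 := by omega
                simp [h1, h2]
            · intro m _
              by_cases h1 : m = 0
              · simp [h1]; omega
              · simp [h1]; omega
          have r4 := (FC.ofFIC ρ).push k _ hf r3
          have r5 := (FC.ofFIC ρ).add (fun m => b m - ee i j m) r4
          have r6 : L1 ρ k b (fun m => (if m = j then 2 else 0) + (b m - ee i j m)) := by
            refine (FC.ofFIC ρ).ext ?_ ?_ r5
            · intro m _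
              unfold psh v2 ee
              simp only [Finset.sum_range_succ, Finset.sum_range_zero]
              by_cases h1 : m = i
              · subst h1
                have h5 : ¬ m = j := by omega
                have h6 : ¬ j = m := by omega
                simp [h5, h6]
                omega
              · by_cases h2 : m = j
                · have h3 : ¬ i = m := by omega
                  simp [h2]
                  have h5 : ¬ i = j := by omega
                  have h6 : ¬ j = i := by omega
                  simp [h5, h6]
                  omega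
                · have h3 : ¬ i = m := by omega
                  have h4 : ¬ j = m := by omega
                  simp [h1, h2, h3, h4]
            · intro m _
              unfold psh v2
              simp only [Finset.sum_range_succ, Finset.sum_range_zero]
              by_cases h2 : m = j
              · have h4 : j = m := h2.symm
                simp [h2]
              · have h4 : ¬ j = m := fun h => h2 h.symm
                simp [h2, h4]
          have hdb' : 2 ≤ deg k (fun m => (if m = j then 2 else 0) + (b m - ee i j m)) := by
            unfold deg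
            rw [Finset.sum_add_distrib, Finset.sum_ite_eq', if_pos (Finset.mem_range.2 (by omega))]
            omega
          have r7 : Bt ρ k a (fun m => (if m = j then 2 else 0) + (b m - ee i j m)) i := by
            refine v0 k a _ i (by omega) hdb' hi ?_
            rintro ⟨_, _, h2, _⟩
            have h3 : ¬ i = j := by omega
            simp [h3, ee, hb2] at h2
          exact v5 _ _ _ _ (vv2 _ _ _ _ _ r6 (v5 _ _ _ _ r7))
        · refine vv2 k a (sg i 2) b i r1 (v0 k (sg i 2) b i (by rw [deg_sg hlk]) hdb hi ?_)
          rintro ⟨_, _, h2, h3⟩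
          rcases h3 with h3 | h3
          · unfold sg at h3
            simp at h3
          · exact hb2 h3
    · refine vv2 k a (sg l 2) b i r1 (v0 k (sg l 2) b i (by rw [deg_sg hlk]) hdb hi ?_)
      rintro ⟨_, h2, _⟩
      unfold sg at h2
      rw [if_neg hil] at h2
      omega
  · -- different last blocks
    by_cases hc : (sp k a).card = 1 ∧ (sp k a').card = 1
    · have hCP := hC hc.1 hc.2
      obtain ⟨p, hp⟩ := Finset.card_eq_one.1 hc.1
      have hpm : p ∈ sp k a := by rw [hp]; simp
      have hpk : p ≤ k := by
        have := (Finset.mem_filter.1 hpm).1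
        rw [Finset.mem_range] at this
        omega
      have r1 : L1 ρ k a (sg p 2) := hCP k a (sg p 2) hda (deg_sg hpk) hc.1
        (by rw [sp_sg hpk (by omega)]; simp)
      have r2 : L1 ρ 1 (v2 2 0) (v2 0 2) := hCP 1 (v2 2 0) (v2 0 2) d20 d02
        (by rw [s20]; simp) (by rw [s02]; simp)
      exact vv2 k a (sg p 2) b i r1 (fv7' k p 2 0 2 b i hpk hi (by omega) (by omega) (by omega)
        hdb r2)
    · have hAP := hA hmax hc
      obtain ⟨p, hp⟩ := Finset.min_of_nonempty hna
      have hpm : p ∈ sp k a := Finset.mem_of_min hp
      have hpk : p ≤ k := by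
        have := (Finset.mem_filter.1 hpm).1
        rw [Finset.mem_range] at this
        omega
      have r1 : L1 ρ k a (sg p 2) := hAP k a (sg p 2) hda (deg_sg hpk) hca
        (by rw [sp_sg hpk (by omega)]; simp) (by rw [sp_sg hpk (by omega), hp, Finset.min_singleton])
      have r2 : L1 ρ 1 (v2 2 0) (v2 1 1) := hAP 1 (v2 2 0) (v2 1 1) d20 d11
        (by rw [s20]; decide) (by rw [s11]; decide) (by rw [s20, s11]; decide)
      exact vv2 k a (sg p 2) b i r1 (fv7' k p 2 1 1 b i hpk hi (by omega) (by omega) (by omega)
        hdb r2)

end Pool.Agent.MVO.H48
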